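import Pool.Agent.helper29.PQ.Spec

namespace Pool.Agent.helper55.PQ

open Finset Pool.Agent.helper29.PQ

theorem modEq_prod (D : Finset ℕ) (hD : ∀ p ∈ D, p.Prime) (a b : ℕ) :
    a ≡ b [MOD ∏ p ∈ D, p] ↔ ∀ p ∈ D, a ≡ b [MOD p] := by
  classical
  induction D using Finset.induction_on with
  | empty => simp [Nat.modEq_one]
  | insert q s hq ih =>
    have hs : ∀ p ∈ s, p.Prime := fun p hp => hD p (mem_insert_of_mem hp)
    have hqp : q.Prime := hD q (mem_insert_self q s)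
    have hc : Nat.Coprime q (∏ p ∈ s, p) := by
      refine Nat.Coprime.prod_right fun p hp => ?_
      refine (Nat.coprime_primes hqp (hs p hp)).2 ?_
      rintro rfl
      exact hq hp
    rw [prod_insert hq, ← Nat.modEq_and_modEq_iff_modEq_mul hc, ih hs]
    constructor
    · rintro ⟨h1, h2⟩ p hp
      rcases mem_insert.1 hp with rfl | hp
      · exact h1
      · exact h2 p hp
    · intro h
      exact ⟨h q (mem_insert_self q s), fun p hp => h p (mem_insert_of_mem hp)⟩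

theorem expand (P T : Finset ℕ) (hP : ∀ p ∈ P, p.Prime) (c : ℕ → ℝ) :
    ∑ D ∈ P.powerset, (∏ p ∈ D, c p) * (pc T (∏ p ∈ D, p) : ℝ)
      = ∑ x ∈ T ×ˢ T, ∏ p ∈ P, (1 + c p * (if x.1 ≡ x.2 [MOD p] then 1 else 0)) := by
  classical
  have h1 : ∀ x ∈ T ×ˢ T, ∏ p ∈ P, (1 + c p * (if x.1 ≡ x.2 [MOD p] then (1 : ℝ) else 0))
      = ∑ D ∈ P.powerset, ∏ p ∈ D, c p * (if x.1 ≡ x.2 [MOD p] then (1 : ℝ) else 0) :=
    fun x _ => prod_one_add P
  rw [sum_congr rfl h1, sum_comm]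
  refine sum_congr rfl fun D hD => ?_
  have hDP : ∀ p ∈ D, p.Prime := fun p hp => hP p (mem_powerset.1 hD hp)
  have h2 : ∀ x ∈ T ×ˢ T, ∏ p ∈ D, c p * (if x.1 ≡ x.2 [MOD p] then (1 : ℝ) else 0)
      = (∏ p ∈ D, c p) * (if x.1 ≡ x.2 [MOD ∏ p ∈ D, p] then (1 : ℝ) else 0) := by
    intro x _
    rw [prod_mul_distrib]
    congr 1
    rw [prod_boole]
    by_cases h : x.1 ≡ x.2 [MOD ∏ p ∈ D, p]
    · rw [if_pos h, if_pos ((modEq_prod D hDP x.1 x.2).1 h)]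
    · rw [if_neg h, if_neg fun h' => h ((modEq_prod D hDP x.1 x.2).2 h')]
  rw [sum_congr rfl h2, ← mul_sum]
  congr 1
  rw [pc, card_filter]
  push_cast
  rfl

theorem B1 : B1_stmt := by
  classical
  intro P T v u M lam hlam hP hv hD
  obtain ⟨n, rfl⟩ : ∃ n, lam = n + 1 := ⟨lam - 1, by omega⟩
  have hf0 : ∀ x ∈ T ×ˢ T,
      0 ≤ ∏ p ∈ P, (1 + v p * (if x.1 ≡ x.2 [MOD p] then (1 : ℝ) else 0)) := by
    intro x _
    refine prod_nonneg fun p hp => ?_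
    have := hv p hp
    split_ifs <;> linarith
  have hpow : ∀ x ∈ T ×ˢ T,
      (∏ p ∈ P, (1 + v p * (if x.1 ≡ x.2 [MOD p] then (1 : ℝ) else 0))) ^ (n + 1)
        = ∏ p ∈ P, (1 + ((1 + v p) ^ (n + 1) - 1) * (if x.1 ≡ x.2 [MOD p] then (1 : ℝ) else 0)) := by
    intro x _
    rw [← prod_pow]
    refine prod_congr rfl fun p _ => ?_
    split_ifs
    · ring
    · simp
  have hJ := pow_sum_le_card_mul_sum_pow hf0 n
  rw [expand P T hP v]
  refine hJ.trans ?_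
  rw [sum_congr rfl hpow, ← expand P T hP (fun p => (1 + v p) ^ (n + 1) - 1)]
  have hle : ∑ D ∈ P.powerset, (∏ p ∈ D, ((1 + v p) ^ (n + 1) - 1)) * (pc T (∏ p ∈ D, p) : ℝ)
      ≤ M * (∏ p ∈ P, (1 + ((1 + v p) ^ (n + 1) - 1) * u p)) * (#T : ℝ) ^ 2 := by
    have h3 : ∏ p ∈ P, (1 + ((1 + v p) ^ (n + 1) - 1) * u p)
        = ∑ D ∈ P.powerset, ∏ p ∈ D, (((1 + v p) ^ (n + 1) - 1) * u p) := prod_one_add P
    rw [h3, mul_assoc, sum_mul, mul_sum]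
    refine sum_le_sum fun D hDm => ?_
    have hDP : D ⊆ P := mem_powerset.1 hDm
    have h4 : 0 ≤ ∏ p ∈ D, ((1 + v p) ^ (n + 1) - 1) := by
      refine prod_nonneg fun p hp => ?_
      have h5 := hv p (hDP hp)
      have h6 : 1 ≤ (1 + v p) ^ (n + 1) := one_le_pow₀ (by linarith)
      linarith
    rw [prod_mul_distrib]
    calc (∏ p ∈ D, ((1 + v p) ^ (n + 1) - 1)) * (pc T (∏ p ∈ D, p) : ℝ)
        ≤ (∏ p ∈ D, ((1 + v p) ^ (n + 1) - 1)) * (M * (∏ p ∈ D, u p) * (#T : ℝ) ^ 2) :=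
          mul_le_mul_of_nonneg_left (hD D hDP) h4
      _ = _ := by ring
  have hc : (((T ×ˢ T).card : ℕ) : ℝ) = (#T : ℝ) ^ 2 := by
    rw [card_product]
    push_cast
    ring
  rw [hc]
  calc ((#T : ℝ) ^ 2) ^ n * ∑ D ∈ P.powerset, (∏ p ∈ D, ((1 + v p) ^ (n + 1) - 1)) *
          (pc T (∏ p ∈ D, p) : ℝ)
      ≤ ((#T : ℝ) ^ 2) ^ n * (M * (∏ p ∈ P, (1 + ((1 + v p) ^ (n + 1) - 1) * u p)) * (#T : ℝ) ^ 2) :=
        mul_le_mul_of_nonneg_left hle (by positivity)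
    _ = _ := by ring

end Pool.Agent.helper55.PQ
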