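import Pool.Agent.helper7.PQ.Spec

set_option autoImplicit false

noncomputable section

namespace Pool.Agent.PQ

open Finset PowerSeries Pool.Agent.EP

theorem CRE_per (t : ℕ) (r : ℕ → ZMod 2) (hr : ∀ n, r (n + t) = r n) (k n : ℕ) : r (n + k * t) = r n := by
  induction k with
  | zero => rw [zero_mul, add_zero]
  | succ k ih => rw [add_mul, one_mul, ← add_assoc, hr, ih]

theorem CRE_one (x : ZMod 2) (h : x ≠ 0) : x = 1 := by
  revert x; decide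

/-- the auxiliary number `u₀` -/
def CRE_u (t m : ℕ) : ℕ := ∏ l ∈ t.primeFactors with ¬ l ∣ 6 * m, l

theorem CRE_dvd_u (t m : ℕ) (ht : 0 < t) (l : ℕ) (hl : l.Prime) :
    l ∣ CRE_u t m ↔ l ∣ t ∧ ¬ l ∣ 6 * m := by
  rw [CRE_u, hl.prime.dvd_finsetProd_iff]
  constructor
  · rintro ⟨a, ha, hla⟩
    rw [mem_filter, Nat.mem_primeFactors] at ha
    have : l = a := (Nat.prime_dvd_prime_iff_eq hl ha.1.1).mp hla
    rw [this]
    exact ⟨ha.1.2.1, ha.2⟩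
  · rintro ⟨h1, h2⟩
    exact ⟨l, by rw [mem_filter, Nat.mem_primeFactors]; exact ⟨⟨hl, h1, ht.ne'⟩, h2⟩, dvd_rfl⟩

theorem CRE_cop (t m : ℕ) (ht : 0 < t) : (CRE_u t m).Coprime 6 := by
  refine Nat.coprime_of_dvd fun l hl h1 h2 => ?_
  exact ((CRE_dvd_u t m ht l hl).mp h1).2 (Dvd.dvd.mul_right h2 m)

/-- `2 ^ b = 2` modulo 3 for odd `b` -/
theorem CRE_two (i : ℕ) : 2 ^ (2 * i + 3) % 3 = 2 := by
  rw [pow_add, pow_mul, Nat.mul_mod, Nat.pow_mod]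
  norm_num

theorem CRE_sq (u : ℕ) (hu : u.Coprime 6) : u ^ 2 % 3 = 1 := by
  have h1 : u % 3 ≠ 0 := by
    intro h
    have h2 : 3 ∣ Nat.gcd u 6 := Nat.dvd_gcd (Nat.dvd_of_mod_eq_zero h) (by norm_num)
    rw [hu] at h2
    norm_num at h2
  have h2 : u % 3 = 1 ∨ u % 3 = 2 := by omega
  rcases h2 with h | h <;> rw [Nat.pow_mod, h]

theorem CRE_mm (i t n₀ : ℕ) (ht : 0 < t) (hn : 0 < n₀) :
    (mm (2 * i + 3) n₀ (CRE_u t (24 * n₀ - 1))).Coprime (24 * t * 2 ^ (2 * i + 3)) := by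
  have hcop := CRE_cop t (24 * n₀ - 1) ht
  have hdvd := CRE_dvd_u t (24 * n₀ - 1) ht
  set u := CRE_u t (24 * n₀ - 1) with hu
  have hsq := CRE_sq u hcop
  have htwo := CRE_two i
  refine Nat.coprime_of_dvd fun l hl h1 h2 => ?_
  rw [mm] at h1
  by_cases hl2 : l = 2
  · rw [hl2] at h1
    have h3 : 2 ∣ 2 ^ (2 * i + 3) * u ^ 2 := Dvd.dvd.mul_right (dvd_pow_self 2 (by omega)) _
    have h4 := (Nat.dvd_add_left h3).mp h1
    omega
  by_cases hl3 : l = 3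
  · rw [hl3] at h1
    have h3 : (24 * n₀ - 1 + 2 ^ (2 * i + 3) * u ^ 2) % 3 = 0 := Nat.mod_eq_zero_of_dvd h1
    rw [Nat.add_mod, Nat.mul_mod, hsq, htwo] at h3
    omega
  have hl6 : ¬ l ∣ 6 := by
    intro h
    have h3 : l ∣ 2 * 3 := h
    rcases (Nat.Prime.dvd_mul hl).mp h3 with h | h
    · exact hl2 ((Nat.prime_dvd_prime_iff_eq hl Nat.prime_two).mp h)
    · exact hl3 ((Nat.prime_dvd_prime_iff_eq hl Nat.prime_three).mp h)
  have hlp : ¬ l ∣ 2 ^ (2 * i + 3) := by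
    intro h
    exact hl2 ((Nat.prime_dvd_prime_iff_eq hl Nat.prime_two).mp (hl.dvd_of_dvd_pow h))
  have hlt : l ∣ t := by
    rcases (Nat.Prime.dvd_mul hl).mp h2 with h | h
    · rcases (Nat.Prime.dvd_mul hl).mp h with h | h
      · exfalso
        have h3 : l ∣ 2 ^ 3 * 3 := h
        rcases (Nat.Prime.dvd_mul hl).mp h3 with h | h
        · exact hl2 ((Nat.prime_dvd_prime_iff_eq hl Nat.prime_two).mp (hl.dvd_of_dvd_pow h))
        · exact hl3 ((Nat.prime_dvd_prime_iff_eq hl Nat.prime_three).mp h)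
      · exact h
    · exact absurd h hlp
  by_cases hm : l ∣ 24 * n₀ - 1
  · have h3 := (Nat.dvd_add_right hm).mp h1
    rcases (Nat.Prime.dvd_mul hl).mp h3 with h | h
    · exact hlp h
    · have h4 : l ∣ u := hl.dvd_of_dvd_pow h
      exact ((hdvd l hl).mp h4).2 (Dvd.dvd.mul_left hm 6)
  · have h4 : l ∣ u := (hdvd l hl).mpr ⟨hlt, fun h => by
      rcases (Nat.Prime.dvd_mul hl).mp h with h | h
      · exact hl6 h
      · exact hm h⟩
    have h5 : l ∣ 2 ^ (2 * i + 3) * u ^ 2 := Dvd.dvd.mul_left (dvd_pow h4 (by norm_num)) _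
    exact hm ((Nat.dvd_add_left h5).mp h1)

theorem CRE_s (X k : ℕ) : ∃ s : Finset ℕ, (∀ q ∈ s, q.Prime ∧ q % 24 = 7 ∧ X < q) ∧ k ≤ #s := by
  induction k with
  | zero => exact ⟨∅, fun q hq => absurd hq (Finset.notMem_empty q), Nat.zero_le _⟩
  | succ k ih =>
    obtain ⟨s, hs, hk⟩ := ih
    obtain ⟨p, hp, hpp, hp7⟩ := Nat.forall_exists_prime_gt_and_modEq (X + ∑ q ∈ s, q) (q := 24) (a := 7)
      (by norm_num) (by norm_num)
    have hps : p ∉ s := by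
      intro h
      have := Finset.single_le_sum (f := fun q : ℕ => q) (fun q _ => Nat.zero_le q) h
      omega
    refine ⟨insert p s, fun q hq => ?_, by rw [card_insert_of_notMem hps]; omega⟩
    rcases Finset.mem_insert.mp hq with h | h
    · rw [h]
      exact ⟨hpp, hp7, by omega⟩
    · exact hs q h

theorem CRE_mu (q : ℕ) (hq : q ≠ 0) : ∃ μ : ℕ, μ.Prime ∧ q ∣ μ + 1 := by
  have : NeZero q := ⟨hq⟩
  have h1 : IsUnit (-1 : ZMod q) := isUnit_one.neg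
  obtain ⟨p, -, hp, h2⟩ := Nat.forall_exists_prime_gt_and_eq_mod h1 0
  refine ⟨p, hp, ?_⟩
  rw [← ZMod.natCast_eq_zero_iff]
  push_cast
  rw [h2]
  ring

theorem CRE : CRE_stmt := by
  intro i a t r ht hr
  rintro ⟨n, hn, hrn⟩
  obtain ⟨s, hs, hsc⟩ := CRE_s (24 * t * 2 ^ (2 * i + 3)) (2 ^ (2 * i + 3))
  have hprod : (∏ q ∈ s, q) ≠ 0 := Finset.prod_ne_zero_iff.mpr fun q hq => (hs q hq).1.ne_zero
  have h24 : 24 * t * 2 ^ (2 * i + 3) * ∏ q ∈ s, q ≠ 0 := by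
    have : 0 < 2 ^ (2 * i + 3) := by positivity
    exact mul_ne_zero (by positivity) hprod
  obtain ⟨μ, hμ, hμd⟩ := CRE_mu _ h24
  have hpos : 0 < n + 2 ^ i * t := by
    have : 0 < 2 ^ i * t := by positivity
    omega
  refine ⟨n + 2 ^ i * t, CRE_u t (24 * (n + 2 ^ i * t) - 1), μ, s,
    ⟨by omega, by omega, ht, hr, hpos, ?_, CRE_cop _ _ ht, CRE_mm i t _ ht hpos, hs, hsc, hμ, hμd⟩, ?_⟩
  · rw [CRE_per t r hr, CRE_one _ hrn]
  · rw [Nat.add_mul_mod_self_left, hn]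

end Pool.Agent.PQ
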